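import Pool.Agent.Q196.SL.Fam
import Pool.Agent.Q170.SC.Defs
import Pool.Agent.Q170.SC.Inv

/-!
# Canonical isotopies of symplectomorphisms
-/

set_option autoImplicit false

open scoped ContDiff
open Set Topology Function Filter Q170.SC

namespace Q196.SL

variable {n : ℕ}

/-- The partial straight line homotopy. -/
def X (β : E n →L[ℝ] E n) (φ : SympCt n) (s : ℝ) (z : E n) : E n := z + s • β (φ.map z - z)

def Y (β : E n →L[ℝ] E n) (φ : SympCt n) (s : ℝ) (z : E n) : E n :=
  φ.map z - s • ((φ.map z - z) - β (φ.map z - z))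

/-- all stages of the partial straight line homotopy are immersions -/
def Good (β : E n →L[ℝ] E n) (φ : SympCt n) : Prop :=
  ∀ s : ℝ, 0 ≤ s → s ≤ 1 → ∀ z u : E n, fderiv ℝ (X β φ s) z u = 0 → u = 0

theorem smooth_map (φ : SympCt n) : ContDiff ℝ ∞ φ.map := φ.2.1.smooth

theorem hasD (φ : SympCt n) (z : E n) : HasFDerivAt φ.map (fderiv ℝ φ.map z) z :=
  ((smooth_map φ).differentiable (by simp) z).hasFDerivAt

theorem X_smooth (β : E n →L[ℝ] E n) (φ : SympCt n) (s : ℝ) : ContDiff ℝ ∞ (X β φ s) := by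
  unfold X
  exact contDiff_id.add ((β.contDiff.comp ((smooth_map φ).sub contDiff_id)).const_smul s)

theorem Y_smooth (β : E n →L[ℝ] E n) (φ : SympCt n) (s : ℝ) : ContDiff ℝ ∞ (Y β φ s) := by
  unfold Y
  exact (smooth_map φ).sub ((((smooth_map φ).sub contDiff_id).sub
    (β.contDiff.comp ((smooth_map φ).sub contDiff_id))).const_smul s)

/-- derivative of `φ - id` -/
noncomputable def W (φ : SympCt n) (z : E n) : E n →L[ℝ] E n :=
  fderiv ℝ φ.map z - ContinuousLinearMap.id ℝ (E n)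

theorem X_deriv (β : E n →L[ℝ] E n) (φ : SympCt n) (s : ℝ) (z u : E n) :
    fderiv ℝ (X β φ s) z u = u + s • β (W φ z u) := by
  have h : HasFDerivAt (X β φ s)
      (ContinuousLinearMap.id ℝ (E n) + s • β.comp (W φ z)) z :=
    (hasFDerivAt_id z).add ((β.hasFDerivAt.comp z ((hasD φ z).sub (hasFDerivAt_id z))).const_smul s)
  rw [h.fderiv]
  rfl

theorem Y_deriv (β : E n →L[ℝ] E n) (φ : SympCt n) (s : ℝ) (z u : E n) :
    fderiv ℝ (Y β φ s) z u = (u + W φ z u) - s • (W φ z u - β (W φ z u)) := by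
  have h0 : HasFDerivAt (fun z => φ.map z - z) (W φ z) z := (hasD φ z).sub (hasFDerivAt_id z)
  have h : HasFDerivAt (Y β φ s)
      (fderiv ℝ φ.map z - s • (W φ z - β.comp (W φ z))) z :=
    (hasD φ z).sub ((h0.sub (β.hasFDerivAt.comp z h0)).const_smul s)
  rw [h.fderiv]
  have : fderiv ℝ φ.map z u = u + W φ z u := by
    simp [W]
  simp [this]

theorem omega_add_left (u v w : E n) : omega (u + v) w = omega u w + omega v w := by
  simp only [omega, ← Finset.sum_add_distrib, Prod.fst_add, Prod.snd_add, Pi.add_apply]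
  exact Finset.sum_congr rfl fun i _ => by ring

theorem omega_add_right (u v w : E n) : omega u (v + w) = omega u v + omega u w := by
  simp only [omega, ← Finset.sum_add_distrib, Prod.fst_add, Prod.snd_add, Pi.add_apply]
  exact Finset.sum_congr rfl fun i _ => by ring

theorem omega_smul_left (s : ℝ) (u v : E n) : omega (s • u) v = s * omega u v := by
  simp only [omega, Finset.mul_sum, Prod.smul_fst, Prod.smul_snd, Pi.smul_apply, smul_eq_mul]
  exact Finset.sum_congr rfl fun i _ => by ring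

theorem omega_smul_right (s : ℝ) (u v : E n) : omega u (s • v) = s * omega u v := by
  simp only [omega, Finset.mul_sum, Prod.smul_fst, Prod.smul_snd, Pi.smul_apply, smul_eq_mul]
  exact Finset.sum_congr rfl fun i _ => by ring

/-- the form is nondegenerate -/
theorem omega_nondeg (u : E n) (h : ∀ v, omega u v = 0) : u = 0 := by
  have h1 : omega u ((fun i => -u.2 i), (fun i => u.1 i)) = 0 := h _
  have h2 : ∑ i, (u.1 i ^ 2 + u.2 i ^ 2) = 0 := by
    rw [← h1]
    simp only [omega]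
    exact Finset.sum_congr rfl fun i _ => by ring
  rw [Finset.sum_eq_zero_iff_of_nonneg (fun i _ => by positivity)] at h2
  ext i
  · have := h2 i (Finset.mem_univ i)
    have h3 : u.1 i ^ 2 = 0 := by nlinarith [sq_nonneg (u.1 i), sq_nonneg (u.2 i)]
    simpa using h3
  · have := h2 i (Finset.mem_univ i)
    have h3 : u.2 i ^ 2 = 0 := by nlinarith [sq_nonneg (u.1 i), sq_nonneg (u.2 i)]
    simpa using h3

theorem form_eq (β : E n →L[ℝ] E n)
    (hβ : ∀ u v : E n, omega (β u) v + omega u (β v) = omega u v) (φ : SympCt n) (s : ℝ)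
    (z u v : E n) : omega (fderiv ℝ (Y β φ s) z u) (fderiv ℝ (Y β φ s) z v)
      = omega (fderiv ℝ (X β φ s) z u) (fderiv ℝ (X β φ s) z v) := by
  rw [Y_deriv, Y_deriv, X_deriv, X_deriv]
  set a := W φ z u with ha
  set b := W φ z v with hb
  have h1 : omega (u + a) (v + b) = omega u v := by
    have e : ∀ w, fderiv ℝ φ.map z w = w + W φ z w := fun w => by simp [W]
    rw [ha, hb, ← e, ← e]
    exact φ.2.1.form z u v
  have h2 := hβ a b
  have h3 : (u + a) - s • (a - β a) = (u + s • β a) + (1 - s) • a := by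
    module
  have h4 : (v + b) - s • (b - β b) = (v + s • β b) + (1 - s) • b := by
    module
  rw [h3, h4]
  simp only [omega_add_left, omega_add_right, omega_smul_left, omega_smul_right] at h1 h2 ⊢
  linear_combination (1 - s) * h1 + (1 - s) * s * h2

theorem X_off (β : E n →L[ℝ] E n) (φ : SympCt n) (s : ℝ) (z : E n) (h : φ.map z = z) :
    X β φ s z = z := by simp [X, h]

theorem Y_off (β : E n →L[ℝ] E n) (φ : SympCt n) (s : ℝ) (z : E n) (h : φ.map z = z) :
    Y β φ s z = z := by simp [Y, h]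

theorem Y_inj (β : E n →L[ℝ] E n)
    (hβ : ∀ u v : E n, omega (β u) v + omega u (β v) = omega u v) (φ : SympCt n)
    (s : ℝ) (hX : ∀ z u : E n, fderiv ℝ (X β φ s) z u = 0 → u = 0) (z u : E n)
    (h : fderiv ℝ (Y β φ s) z u = 0) : u = 0 := by
  apply hX z u
  apply omega_nondeg
  intro v
  -- surjectivity of the derivative of X
  have hs : Surjective (fderiv ℝ (X β φ s) z) :=
    LinearMap.surjective_of_injective (f := (fderiv ℝ (X β φ s) z : E n →ₗ[ℝ] E n))
      ((injective_iff_map_eq_zero _).2 fun v hv => hX z v hv)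
  obtain ⟨w, rfl⟩ := hs v
  rw [← form_eq β hβ, h]
  simp [omega]

theorem X_bij (β : E n →L[ℝ] E n) (φ : SympCt n) (s : ℝ)
    (hX : ∀ z u : E n, fderiv ℝ (X β φ s) z u = 0 → u = 0) : Bijective (X β φ s) := by
  obtain ⟨K, hK, hφ⟩ := φ.2.2
  exact bij K hK (X β φ s) ((X_smooth β φ s).of_le (by simp)) hX
    (fun z hz => X_off β φ s z (hφ z hz))

theorem Y_bij (β : E n →L[ℝ] E n)
    (hβ : ∀ u v : E n, omega (β u) v + omega u (β v) = omega u v) (φ : SympCt n) (s : ℝ)
    (hX : ∀ z u : E n, fderiv ℝ (X β φ s) z u = 0 → u = 0) : Bijective (Y β φ s) := by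
  obtain ⟨K, hK, hφ⟩ := φ.2.2
  exact bij K hK (Y β φ s) ((Y_smooth β φ s).of_le (by simp)) (Y_inj β hβ φ s hX)
    (fun z hz => Y_off β φ s z (hφ z hz))

/-- the perm `X z ↦ Y z` -/
noncomputable def pm (β : E n →L[ℝ] E n) (φ : SympCt n) (s : ℝ) (hX : Bijective (X β φ s))
    (hY : Bijective (Y β φ s)) : Equiv.Perm (E n) :=
  (Equiv.ofBijective _ hX).symm.trans (Equiv.ofBijective _ hY)

theorem pm_X (β : E n →L[ℝ] E n) (φ : SympCt n) (s : ℝ) (hX : Bijective (X β φ s))
    (hY : Bijective (Y β φ s)) (z : E n) : pm β φ s hX hY (X β φ s z) = Y β φ s z := by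
  have : (Equiv.ofBijective _ hX).symm (X β φ s z) = z := (Equiv.ofBijective _ hX).symm_apply_apply z
  simp [pm, this]

theorem pm_symm_Y (β : E n →L[ℝ] E n) (φ : SympCt n) (s : ℝ) (hX : Bijective (X β φ s))
    (hY : Bijective (Y β φ s)) (z : E n) : (pm β φ s hX hY).symm (Y β φ s z) = X β φ s z := by
  rw [Equiv.symm_apply_eq, pm_X]

theorem pm_symp (β : E n →L[ℝ] E n)
    (hβ : ∀ u v : E n, omega (β u) v + omega u (β v) = omega u v) (φ : SympCt n) (s : ℝ)
    (hi : ∀ z u : E n, fderiv ℝ (X β φ s) z u = 0 → u = 0) (hX : Bijective (X β φ s))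
    (hY : Bijective (Y β φ s)) : IsSymp (pm β φ s hX hY) := by
  obtain ⟨GX, hGX, hGX1, hGX2⟩ := exists_smooth_inv (X β φ s) (X_smooth β φ s) hX hi
  obtain ⟨GY, hGY, hGY1, hGY2⟩ := exists_smooth_inv (Y β φ s) (Y_smooth β φ s) hY
    (Y_inj β hβ φ s hi)
  have e1 : (pm β φ s hX hY : E n → E n) = Y β φ s ∘ GX := by
    funext z
    have := pm_X β φ s hX hY (GX z)
    rw [hGX2] at this
    exact this
  have e2 : ((pm β φ s hX hY).symm : E n → E n) = X β φ s ∘ GY := by
    funext z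
    have := pm_symm_Y β φ s hX hY (GY z)
    rw [hGY2] at this
    exact this
  have hsm : ContDiff ℝ ∞ (pm β φ s hX hY : E n → E n) := by
    rw [e1]; exact (Y_smooth β φ s).comp hGX
  refine ⟨hsm, ?_, ?_⟩
  · rw [e2]; exact (X_smooth β φ s).comp hGY
  · intro x
    obtain ⟨z, rfl⟩ := hX.2 x
    have hs : Surjective (fderiv ℝ (X β φ s) z) :=
      LinearMap.surjective_of_injective (f := (fderiv ℝ (X β φ s) z : E n →ₗ[ℝ] E n))
        ((injective_iff_map_eq_zero _).2 fun v hv => hi z v hv)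
    have hc : (pm β φ s hX hY : E n → E n) ∘ (X β φ s) = Y β φ s := by
      funext w; exact pm_X β φ s hX hY w
    have hd : (fderiv ℝ (pm β φ s hX hY : E n → E n) (X β φ s z)).comp (fderiv ℝ (X β φ s) z)
        = fderiv ℝ (Y β φ s) z := by
      rw [← fderiv_comp z (hsm.differentiable (by simp) _)
        ((X_smooth β φ s).differentiable (by simp) _), hc]
    intro a b
    obtain ⟨u, rfl⟩ := hs a
    obtain ⟨v, rfl⟩ := hs b
    have hu := DFunLike.congr_fun hd u
    have hv := DFunLike.congr_fun hd v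
    simp only [ContinuousLinearMap.comp_apply] at hu hv
    rw [hu, hv]
    exact form_eq β hβ φ s z u v

theorem pm_supp (β : E n →L[ℝ] E n) (φ : SympCt n) (s : ℝ) (hX : Bijective (X β φ s))
    (hY : Bijective (Y β φ s)) (K : Set (E n)) (hK : SuppIn K φ.perm) :
    SuppIn K (pm β φ s hX hY) := by
  intro z hz
  have h1 : φ.map z = z := hK z hz
  have h2 := pm_X β φ s hX hY z
  rwa [X_off β φ s z h1, Y_off β φ s z h1] at h2

/-- parameter in `[0, 1]` -/
noncomputable def tau (t : ℝ) : ℝ := 1 - Real.smoothTransition t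

theorem tau_nonneg (t : ℝ) : 0 ≤ tau t := by
  unfold tau; linarith [Real.smoothTransition.le_one t]

theorem tau_le_one (t : ℝ) : tau t ≤ 1 := by
  unfold tau; linarith [Real.smoothTransition.nonneg t]

theorem tau_zero : tau 0 = 1 := by simp [tau]

theorem tau_one : tau 1 = 0 := by simp [tau]

theorem tau_smooth : ContDiff ℝ ∞ tau :=
  contDiff_const.sub Real.smoothTransition.contDiff

open Classical in
/-- the contraction -/
noncomputable def con (β : E n →L[ℝ] E n)
    (hβ : ∀ u v : E n, omega (β u) v + omega u (β v) = omega u v) (t : ℝ) (φ : SympCt n) :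
    SympCt n :=
  if h : Good β φ then
    ⟨pm β φ (tau t) (X_bij β φ _ (h _ (tau_nonneg t) (tau_le_one t)))
      (Y_bij β hβ φ _ (h _ (tau_nonneg t) (tau_le_one t))),
      pm_symp β hβ φ _ (h _ (tau_nonneg t) (tau_le_one t)) _ _,
      φ.2.2.choose, φ.2.2.choose_spec.1, pm_supp β φ _ _ _ _ φ.2.2.choose_spec.2⟩
  else 1

theorem ext_map {φ ψ : SympCt n} (h : ∀ z, φ.map z = ψ.map z) : φ = ψ :=
  Subtype.ext (Equiv.ext h)

theorem con_X (β : E n →L[ℝ] E n)
    (hβ : ∀ u v : E n, omega (β u) v + omega u (β v) = omega u v) (t : ℝ) (φ : SympCt n)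
    (h : Good β φ) (z : E n) : (con β hβ t φ).map (X β φ (tau t) z) = Y β φ (tau t) z := by
  unfold con
  rw [dif_pos h]
  exact pm_X β φ (tau t) _ _ z

theorem con_X' (β : E n →L[ℝ] E n) (hβ) (t : ℝ) (φ : SympCt n) (h : Good β φ) (x : E n) :
    ∃ z, X β φ (tau t) z = x ∧ (con β hβ t φ).map x = Y β φ (tau t) z := by
  obtain ⟨z, rfl⟩ := (X_bij β φ _ (h _ (tau_nonneg t) (tau_le_one t))).2 x
  exact ⟨z, rfl, con_X β hβ t φ h z⟩

theorem one_map (z : E n) : (1 : SympCt n).map z = z := rfl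

theorem con_zero (β : E n →L[ℝ] E n) (hβ) (φ : SympCt n) : con β hβ 0 φ = 1 := by
  by_cases h : Good β φ
  · apply ext_map
    intro x
    obtain ⟨z, hz, hx⟩ := con_X' β hβ 0 φ h x
    rw [hx, one_map, ← hz, tau_zero]
    unfold X Y
    module
  · unfold con
    rw [dif_neg h]

theorem con_one (β : E n →L[ℝ] E n) (hβ) (φ : SympCt n) (h : Good β φ) : con β hβ 1 φ = φ := by
  apply ext_map
  intro x
  obtain ⟨z, hz, hx⟩ := con_X' β hβ 1 φ h x
  rw [hx, ← hz, tau_one]
  simp [X, Y]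

theorem con_id (β : E n →L[ℝ] E n) (hβ) (t : ℝ) : con β hβ t 1 = 1 := by
  by_cases h : Good β (1 : SympCt n)
  · apply ext_map
    intro x
    obtain ⟨z, hz, hx⟩ := con_X' β hβ t 1 h x
    rw [hx, ← hz, one_map, X_off _ _ _ _ (one_map z), Y_off _ _ _ _ (one_map z)]
  · unfold con
    rw [dif_neg h]

theorem con_supp (β : E n →L[ℝ] E n) (hβ) (t : ℝ) (φ : SympCt n) (K : Set (E n))
    (hK : SuppIn K φ.perm) : SuppIn K (con β hβ t φ).perm := by
  by_cases h : Good β φ
  · intro x hx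
    have h1 : φ.map x = x := hK x hx
    have h2 := con_X β hβ t φ h x
    rw [X_off _ _ _ _ h1, Y_off _ _ _ _ h1] at h2
    exact h2
  · unfold con
    rw [dif_neg h]
    intro x _
    rfl

theorem con_good (β : E n →L[ℝ] E n) (hβ) (t : ℝ) (φ : SympCt n) (h : Good β φ) :
    Good β (con β hβ t φ) := by
  intro σ h0 h1 x u hu
  set s := tau t with hs
  have hs0 : 0 ≤ s := tau_nonneg t
  have hs1 : s ≤ 1 := tau_le_one t
  obtain ⟨z, rfl⟩ := (X_bij β φ _ (h _ hs0 hs1)).2 x
  have hcomp : (X β (con β hβ t φ) σ) ∘ (X β φ s) = X β φ (s + σ * (1 - s)) := by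
    funext w
    show X β φ s w + σ • β ((con β hβ t φ).map (X β φ s w) - X β φ s w) = _
    rw [con_X β hβ t φ h w]
    have e : Y β φ (tau t) w - X β φ s w = (1 - s) • (φ.map w - w) := by
      unfold X Y; rw [← hs]; module
    rw [e, map_smul]
    unfold X
    module
  have hd : (fderiv ℝ (X β (con β hβ t φ) σ) (X β φ s z)).comp (fderiv ℝ (X β φ s) z)
      = fderiv ℝ (X β φ (s + σ * (1 - s))) z := by
    rw [← fderiv_comp z ((X_smooth β _ σ).differentiable (by simp) _)
      ((X_smooth β φ s).differentiable (by simp) _), hcomp]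
  have hsj : Surjective (fderiv ℝ (X β φ s) z) :=
    LinearMap.surjective_of_injective (f := (fderiv ℝ (X β φ s) z : E n →ₗ[ℝ] E n))
      ((injective_iff_map_eq_zero _).2 fun v hv => h s hs0 hs1 z v hv)
  obtain ⟨v, rfl⟩ := hsj u
  have h3 := DFunLike.congr_fun hd v
  simp only [ContinuousLinearMap.comp_apply] at h3
  rw [hu] at h3
  have h4 : v = 0 := by
    refine h (s + σ * (1 - s)) (by nlinarith) (by nlinarith) z v h3.symm
  rw [h4, map_zero]

/-- smoothness in families -/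
theorem con_family (β : E n →L[ℝ] E n) (hβ) {P : Type*} [NormedAddCommGroup P] [NormedSpace ℝ P]
    [CompleteSpace P] (O : Set P) (hO : IsOpen O) (Φ : P → SympCt n)
    (hΦ : ContDiffOn ℝ ∞ (fun p : P × E n => (Φ p.1).map p.2) (O ×ˢ univ))
    (hg : ∀ p ∈ O, Good β (Φ p)) :
    ContDiffOn ℝ ∞ (fun q : (ℝ × P) × E n => (con β hβ q.1.1 (Φ q.1.2)).map q.2)
      (((univ : Set ℝ) ×ˢ O) ×ˢ univ) := by
  have hOO : IsOpen ((univ : Set ℝ) ×ˢ O) := isOpen_univ.prod hO
  have h1 : ContDiffOn ℝ ∞ (fun q : (ℝ × P) × E n => (Φ q.1.2).map q.2)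
      (((univ : Set ℝ) ×ˢ O) ×ˢ univ) := by
    have e : ContDiff ℝ ∞ (fun q : (ℝ × P) × E n => ((q.1.2, q.2) : P × E n)) := by fun_prop
    exact hΦ.comp e.contDiffOn (fun q hq => ⟨hq.1.2, mem_univ _⟩)
  have ht : ContDiff ℝ ∞ (fun q : (ℝ × P) × E n => tau q.1.1) :=
    tau_smooth.comp (contDiff_fst.comp contDiff_fst)
  have h2 : ContDiffOn ℝ ∞ (fun q : (ℝ × P) × E n => (Φ q.1.2).map q.2 - q.2)
      (((univ : Set ℝ) ×ˢ O) ×ˢ univ) := h1.sub contDiff_snd.contDiffOn
  have hF : ContDiffOn ℝ ∞ (fun q : (ℝ × P) × E n => X β (Φ q.1.2) (tau q.1.1) q.2)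
      (((univ : Set ℝ) ×ˢ O) ×ˢ univ) := by
    unfold X
    exact contDiff_snd.contDiffOn.add (ht.contDiffOn.smul (β.contDiff.comp_contDiffOn h2))
  have hYF : ContDiffOn ℝ ∞ (fun q : (ℝ × P) × E n => Y β (Φ q.1.2) (tau q.1.1) q.2)
      (((univ : Set ℝ) ×ˢ O) ×ˢ univ) := by
    unfold Y
    exact h1.sub (ht.contDiffOn.smul (h2.sub (β.contDiff.comp_contDiffOn h2)))
  classical
  let G : (ℝ × P) × E n → E n := fun q =>
    if h : Good β (Φ q.1.2) then
      (Equiv.ofBijective _ (X_bij β (Φ q.1.2) _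
        (h _ (tau_nonneg q.1.1) (tau_le_one q.1.1)))).symm q.2
    else 0
  have hG1 : ∀ q ∈ (univ : Set ℝ) ×ˢ O, ∀ z, X β (Φ q.2) (tau q.1) (G (q, z)) = z := by
    intro q hq z
    have h := hg q.2 hq.2
    simp only [G]
    rw [dif_pos h]
    exact (Equiv.ofBijective _ (X_bij β (Φ q.2) _
        (h _ (tau_nonneg q.1) (tau_le_one q.1)))).apply_symm_apply z
  have hG2 : ∀ q ∈ (univ : Set ℝ) ×ˢ O, ∀ z, G (q, X β (Φ q.2) (tau q.1) z) = z := by
    intro q hq z
    have h := hg q.2 hq.2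
    simp only [G]
    rw [dif_pos h]
    exact (Equiv.ofBijective _ (X_bij β (Φ q.2) _
        (h _ (tau_nonneg q.1) (tau_le_one q.1)))).symm_apply_apply z
  have hGs : ContDiffOn ℝ ∞ G (((univ : Set ℝ) ×ˢ O) ×ˢ univ) :=
    fam_inv ((univ : Set ℝ) ×ˢ O) hOO (fun q => X β (Φ q.1.2) (tau q.1.1) q.2) hF
      (fun q hq z v hv => hg q.2 hq.2 _ (tau_nonneg q.1) (tau_le_one q.1) z v hv) G hG1 hG2
  have hpair : ContDiffOn ℝ ∞ (fun q : (ℝ × P) × E n => ((q.1, G q) : (ℝ × P) × E n))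
      (((univ : Set ℝ) ×ˢ O) ×ˢ univ) := contDiff_fst.contDiffOn.prodMk hGs
  refine (hYF.comp hpair (fun q hq => ⟨hq.1, mem_univ _⟩)).congr ?_
  rintro ⟨q, x⟩ hq
  have h := con_X β hβ q.1 (Φ q.2) (hg q.2 hq.1.2) (G (q, x))
  rw [hG1 q hq.1 x] at h
  exact h

theorem mul_map (φ ψ : SympCt n) (z : E n) : (φ * ψ).map z = φ.map (ψ.map z) := rfl

attribute [local irreducible] con X Y Good

theorem isotopic_smooth (β : E n →L[ℝ] E n)
    (hβ : ∀ u v : E n, omega (β u) v + omega u (β v) = omega u v) (χ : SympCt n)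
    (h : Good β χ) : ContDiff ℝ ∞ (fun p : ℝ × E n => (con β hβ p.1 χ).map p.2) := by
  have h0 : ContDiff ℝ ∞ (fun p : ℝ × E n => χ.map p.2) := (smooth_map χ).comp contDiff_snd
  have h1 := con_family β hβ (P := ℝ) univ isOpen_univ (fun _ => χ)
    h0.contDiffOn (fun _ _ => h)
  have h3 : ContDiff ℝ ∞ (fun p : ℝ × E n => (((p.1, (0 : ℝ)), p.2) : (ℝ × ℝ) × E n)) := by
    fun_prop
  have h4 := h1.comp (h3.contDiffOn (s := univ)) (fun p _ => ⟨⟨mem_univ _, mem_univ _⟩, mem_univ _⟩)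
  rw [contDiffOn_univ] at h4
  have h5 : (fun p : ℝ × E n => (con β hβ p.1 χ).map p.2) =
      (fun q : (ℝ × ℝ) × E n => (con β hβ q.1.1 χ).map q.2) ∘
        fun p : ℝ × E n => ((p.1, (0 : ℝ)), p.2) := rfl
  rw [h5]
  exact h4

theorem isotopic (β : E n →L[ℝ] E n)
    (hβ : ∀ u v : E n, omega (β u) v + omega u (β v) = omega u v) (φ ψ : SympCt n)
    (h : Good β (φ * ψ⁻¹)) : SmoothIsotopic ψ φ := by
  obtain ⟨K, hK, hφ⟩ := φ.2.2
  obtain ⟨L, hL, hψ⟩ := ψ.2.2
  have hs : SuppIn (K ∪ L) (φ * ψ⁻¹).perm := SuppIn.mul hφ (SuppIn.inv hψ)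
  generalize hχ : φ * ψ⁻¹ = χ at h hs
  have hφψ : χ * ψ = φ := by rw [← hχ, mul_assoc, inv_mul_cancel, mul_one]
  refine ⟨K ∪ L, hK.union hL, fun t => con β hβ t χ * ψ, ?_, ?_, ?_, ?_⟩
  · have h1 := isotopic_smooth β hβ χ h
    have h3 : ContDiff ℝ ∞ (fun p : ℝ × E n => ((p.1, ψ.map p.2) : ℝ × E n)) :=
      contDiff_fst.prodMk ((smooth_map ψ).comp contDiff_snd)
    have h4 := h1.comp h3
    have h5 : (fun p : ℝ × E n => (con β hβ p.1 χ * ψ).map p.2) =
        (fun p : ℝ × E n => (con β hβ p.1 χ).map p.2) ∘ fun p : ℝ × E n => (p.1, ψ.map p.2) := by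
      funext p
      exact mul_map _ _ _
    rw [h5]
    exact h4
  · intro t
    have h1 := con_supp β hβ t χ (K ∪ L) hs
    have h2 : SuppIn (K ∪ L) ψ.perm := fun z hz => hψ z (fun hz' => hz (Or.inr hz'))
    have h3 := SuppIn.mul h1 h2
    rwa [union_self] at h3
  · show con β hβ 0 χ * ψ = ψ
    rw [con_zero, one_mul]
  · show con β hβ 1 χ * ψ = φ
    rw [con_one β hβ _ h, hφψ]

attribute [local semireducible] X Good

/-- Only the first half of the straight line homotopy is needed. -/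
theorem isotopic_half (φ ψ : SympCt n)
    (h : ∀ t : ℝ, 0 ≤ t → t ≤ 1 / 2 → ∀ z u : E n,
      fderiv ℝ (fun z => (1 - t) • ψ.map z + t • φ.map z) z u = 0 → u = 0) :
    SmoothIsotopic ψ φ := by
  refine isotopic ((1 / 2 : ℝ) • ContinuousLinearMap.id ℝ (E n)) ?_ φ ψ ?_
  · intro u v
    simp only [ContinuousLinearMap.smul_apply, ContinuousLinearMap.id_apply, omega_smul_left,
      omega_smul_right]
    ring
  · intro s h0 h1 x u hu
    obtain ⟨z, rfl⟩ : ∃ z, ψ.map z = x := ⟨ψ.perm.symm x, ψ.perm.apply_symm_apply x⟩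
    have hinv : ∀ w, (φ * ψ⁻¹).map (ψ.map w) = φ.map w := by
      intro w
      show φ.map (ψ.perm.symm (ψ.perm w)) = φ.map w
      rw [ψ.perm.symm_apply_apply]
    have hcomp : (X ((1 / 2 : ℝ) • ContinuousLinearMap.id ℝ (E n)) (φ * ψ⁻¹) s) ∘ ψ.map =
        fun z => (1 - s / 2) • ψ.map z + (s / 2) • φ.map z := by
      funext w
      show ψ.map w + s • ((1 / 2 : ℝ) • ContinuousLinearMap.id ℝ (E n))
        ((φ * ψ⁻¹).map (ψ.map w) - ψ.map w) = _
      rw [hinv]
      simp only [ContinuousLinearMap.smul_apply, ContinuousLinearMap.id_apply]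
      module
    have hψd : Surjective (fderiv ℝ ψ.map z) := by
      have hi : ∀ v, fderiv ℝ ψ.map z v = 0 → v = 0 := by
        intro v hv
        apply omega_nondeg
        intro w
        rw [← ψ.2.1.form z v w]
        have : fderiv ℝ (ψ.1 : E n → E n) z v = 0 := hv
        rw [this]
        simp [omega]
      exact LinearMap.surjective_of_injective (f := (fderiv ℝ ψ.map z : E n →ₗ[ℝ] E n))
        ((injective_iff_map_eq_zero _).2 hi)
    obtain ⟨v, rfl⟩ := hψd u
    have hd : (fderiv ℝ (X ((1 / 2 : ℝ) • ContinuousLinearMap.id ℝ (E n)) (φ * ψ⁻¹) s)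
        (ψ.map z)).comp (fderiv ℝ ψ.map z)
        = fderiv ℝ (fun z => (1 - s / 2) • ψ.map z + (s / 2) • φ.map z) z := by
      rw [← fderiv_comp z ((X_smooth _ _ s).differentiable (by simp) _)
        ((smooth_map ψ).differentiable (by simp) _), hcomp]
    have h3 := DFunLike.congr_fun hd v
    simp only [ContinuousLinearMap.comp_apply] at h3
    rw [hu] at h3
    have h4 : v = 0 := h (s / 2) (by linarith) (by linarith) z v h3.symm
    rw [h4, map_zero]

/-- Criterion by a diagonal block of the derivative. -/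
theorem isotopic_block (φ : SympCt n)
    (h : ∀ (s : ℝ), 0 ≤ s → s ≤ 1 → ∀ (z : E n) (a : Fin n → ℝ),
      (1 - s) • a + s • (fderiv ℝ φ.map z (a, 0)).1 = 0 → a = 0) :
    SmoothIsotopic 1 φ := by
  refine isotopic ((ContinuousLinearMap.fst ℝ (Fin n → ℝ) (Fin n → ℝ)).prod 0) ?_ φ 1 ?_
  · intro u v
    simp only [omega, ← Finset.sum_add_distrib]
    exact Finset.sum_congr rfl fun i _ => by simp; ring
  · intro s h0 h1 z u hu
    have e : φ * (1 : SympCt n)⁻¹ = φ := by rw [inv_one, mul_one]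
    rw [e, X_deriv] at hu
    have h2 : u.2 = 0 := by
      have := congrArg Prod.snd hu
      simpa using this
    have h3 : u = (u.1, 0) := Prod.ext rfl h2
    have h4 : u.1 = 0 := by
      apply h s h0 h1 z
      have h5 := congrArg Prod.fst hu
      have h6 : (W φ z u).1 = (fderiv ℝ φ.map z (u.1, 0)).1 - u.1 := by
        rw [← h3]
        simp [W]
      simp only [Prod.fst_add, Prod.smul_fst, ContinuousLinearMap.prod_apply,
        ContinuousLinearMap.coe_fst', Prod.fst_zero] at h5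
      rw [h6] at h5
      have h7 : (1 - s) • u.1 + s • (fderiv ℝ φ.map z (u.1, 0)).1
          = u.1 + s • ((fderiv ℝ φ.map z (u.1, 0)).1 - u.1) := by module
      rw [h7]
      exact h5
    rw [h3, h4]
    rfl

/-- Criterion by the norm of the derivative. -/
theorem isotopic_norm (φ : SympCt n)
    (h : ∀ z : E n, ‖fderiv ℝ φ.map z - ContinuousLinearMap.id ℝ (E n)‖ < 2) :
    SmoothIsotopic 1 φ := by
  refine isotopic ((1 / 2 : ℝ) • ContinuousLinearMap.id ℝ (E n)) ?_ φ 1 ?_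
  · intro u v
    simp only [ContinuousLinearMap.smul_apply, ContinuousLinearMap.id_apply, omega_smul_left,
      omega_smul_right]
    ring
  · intro s h0 h1 z u hu
    have e : φ * (1 : SympCt n)⁻¹ = φ := by rw [inv_one, mul_one]
    rw [e, X_deriv] at hu
    by_contra hne
    have hpos : 0 < ‖u‖ := norm_pos_iff.2 hne
    have h2 : u = -((s / 2) • W φ z u) := by
      have h3 : u + (s / 2) • W φ z u = 0 := by
        rw [← hu]
        simp only [ContinuousLinearMap.smul_apply, ContinuousLinearMap.id_apply]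
        module
      exact eq_neg_of_add_eq_zero_left h3
    have h3 : ‖u‖ = s / 2 * ‖W φ z u‖ := by
      conv_lhs => rw [h2]
      rw [norm_neg, norm_smul, Real.norm_eq_abs, abs_of_nonneg (by linarith)]
    have h4 : ‖W φ z u‖ ≤ ‖W φ z‖ * ‖u‖ := (W φ z).le_opNorm u
    have h5 : ‖W φ z‖ < 2 := h z
    nlinarith [norm_nonneg (W φ z u), norm_nonneg (W φ z)]

end Q196.SL
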