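import Mathlib

/-!
# Immersions of a vector space in itself that are the identity off a compact set
-/

set_option autoImplicit false

open scoped ContDiff
open Set Topology Function Filter

namespace Q196.SL

variable {V : Type*} [NormedAddCommGroup V] [NormedSpace ℝ V] [FiniteDimensional ℝ V]

/-- The derivative as an equivalence. -/
noncomputable def eqv (F : V → V) (hi : ∀ z v, fderiv ℝ F z v = 0 → v = 0) (z : V) : V ≃L[ℝ] V :=
  (LinearEquiv.ofInjectiveEndo (fderiv ℝ F z : V →ₗ[ℝ] V)
    ((injective_iff_map_eq_zero _).2 fun v hv => hi z v hv)).toContinuousLinearEquiv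

theorem strict (F : V → V) (hF : ContDiff ℝ 1 F) (hi : ∀ z v, fderiv ℝ F z v = 0 → v = 0) (z : V) :
    HasStrictFDerivAt F (eqv F hi z : V →L[ℝ] V) z := by
  have h : (eqv F hi z : V →L[ℝ] V) = fderiv ℝ F z := by
    ext v
    rfl
  rw [h]
  exact (hF.contDiffAt).hasStrictFDerivAt (by simp)

/-- local injectivity -/
theorem loc_inj (F : V → V) (hF : ContDiff ℝ 1 F) (hi : ∀ z v, fderiv ℝ F z v = 0 → v = 0)
    (z : V) : ∃ U ∈ 𝓝 z, InjOn F U := by
  have : CompleteSpace V := FiniteDimensional.complete ℝ V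
  let e := (strict F hF hi z).toOpenPartialHomeomorph F
  refine ⟨e.source, e.open_source.mem_nhds (strict F hF hi z).mem_toOpenPartialHomeomorph_source, ?_⟩
  exact e.injOn

theorem open_map (F : V → V) (hF : ContDiff ℝ 1 F) (hi : ∀ z v, fderiv ℝ F z v = 0 → v = 0) :
    IsOpenMap F := by
  have : CompleteSpace V := FiniteDimensional.complete ℝ V
  exact isOpenMap_of_hasStrictFDerivAt_equiv (f' := eqv F hi) (strict F hF hi)

theorem surj (K : Set V) (hK : IsCompact K) (F : V → V) (hF : ContDiff ℝ 1 F)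
    (hi : ∀ z v, fderiv ℝ F z v = 0 → v = 0) (hoff : ∀ z, z ∉ K → F z = z) : Surjective F := by
  rw [← range_eq_univ]
  have ho : IsOpen (range F) := (open_map F hF hi).isOpen_range
  have hc : IsClosed (range F) := by
    rw [← closure_subset_iff_isClosed]
    intro y hy
    by_contra hyr
    have hKc : IsClosed (F '' K) := (hK.image hF.continuous).isClosed
    have hyK : y ∉ F '' K := fun h => hyr (image_subset_range F K h)
    have h1 : ∃ᶠ y' in 𝓝 y, F y' = y' := by
      rw [mem_closure_iff_frequently] at hy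
      refine (hy.and_eventually (hKc.isOpen_compl.mem_nhds hyK)).mono ?_
      rintro y' ⟨⟨z, rfl⟩, h2⟩
      have h3 : z ∉ K := fun h => h2 (mem_image_of_mem F h)
      rw [hoff z h3, hoff z h3]
    have h2 : IsClosed {y' : V | F y' = y'} := isClosed_eq hF.continuous continuous_id
    have h3 : y ∈ {y' : V | F y' = y'} := by
      rw [← h2.closure_eq]
      exact mem_closure_iff_frequently.2 h1
    exact hyr ⟨y, h3⟩
  have hn : (range F).Nonempty := ⟨F 0, 0, rfl⟩
  exact IsClopen.eq_univ ⟨hc, ho⟩ hn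

theorem inj (K : Set V) (hK : IsCompact K) (F : V → V) (hF : ContDiff ℝ 1 F)
    (hi : ∀ z v, fderiv ℝ F z v = 0 → v = 0) (hoff : ∀ z, z ∉ K → F z = z) : Injective F := by
  rcases subsingleton_or_nontrivial V with hs | hs
  · exact injective_of_subsingleton F
  by_contra hcon
  let D : Set V := {y | ∃ z z', z ≠ z' ∧ F z = y ∧ F z' = y}
  have hDn : D.Nonempty := by
    rw [Injective] at hcon
    push Not at hcon
    obtain ⟨z, z', h1, h2⟩ := hcon
    exact ⟨F z', z, z', h2, h1, rfl⟩
  have hDo : IsOpen D := by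
    rw [isOpen_iff_mem_nhds]
    rintro y ⟨z, z', hne, h1, h2⟩
    obtain ⟨U, U', hU, hU', hzU, hzU', hd⟩ := t2_separation hne
    have e1 : F '' U ∈ 𝓝 y := by
      rw [← h1]
      exact (open_map F hF hi).image_mem_nhds (hU.mem_nhds hzU)
    have e2 : F '' U' ∈ 𝓝 y := by
      rw [← h2]
      exact (open_map F hF hi).image_mem_nhds (hU'.mem_nhds hzU')
    filter_upwards [e1, e2] with w hw hw'
    obtain ⟨a, ha, haw⟩ := hw
    obtain ⟨b, hb, hbw⟩ := hw'
    refine ⟨a, b, ?_, haw, hbw⟩
    rintro rfl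
    exact (disjoint_left.1 hd) ha hb
  have hDc : IsClosed D := by
    apply IsSeqClosed.isClosed
    intro y y₀ hy hy₀
    have key : ∀ n, ∃ z z', z ≠ z' ∧ F z = y n ∧ F z' = y n ∧ z ∈ K := by
      intro n
      obtain ⟨z, z', hne, h1, h2⟩ := hy n
      by_cases hz : z ∈ K
      · exact ⟨z, z', hne, h1, h2, hz⟩
      · by_cases hz' : z' ∈ K
        · exact ⟨z', z, hne.symm, h2, h1, hz'⟩
        · exfalso
          apply hne
          rw [← hoff z hz, ← hoff z' hz', h1, h2]
    choose z z' hne h1 h2 hzK using key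
    have hb' : ∀ n, z' n ∈ K ∨ z' n = y n := by
      intro n
      by_cases hz' : z' n ∈ K
      · exact Or.inl hz'
      · right; rw [← h2 n, hoff _ hz']
    obtain ⟨a, haK, φ, hφ, ha⟩ := hK.tendsto_subseq hzK
    have hyφ : Tendsto (fun n => y (φ n)) atTop (𝓝 y₀) := hy₀.comp hφ.tendsto_atTop
    have hFa : F a = y₀ := by
      have e1 : Tendsto (fun n => F (z (φ n))) atTop (𝓝 (F a)) :=
        (hF.continuous.tendsto a).comp ha
      have e2 : (fun n => F (z (φ n))) = fun n => y (φ n) := by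
        funext n; exact h1 _
      rw [e2] at e1
      exact tendsto_nhds_unique e1 hyφ
    -- the other sequence
    have hC : IsCompact (K ∪ insert y₀ (range fun n => y (φ n))) :=
      hK.union hyφ.isCompact_insert_range
    have hmem : ∀ n, z' (φ n) ∈ K ∪ insert y₀ (range fun n => y (φ n)) := by
      intro n
      rcases hb' (φ n) with h | h
      · exact Or.inl h
      · right; right; exact ⟨n, h.symm⟩
    obtain ⟨b, -, ψ, hψ, hb⟩ := hC.tendsto_subseq hmem
    have hFb : F b = y₀ := by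
      have e1 : Tendsto (fun n => F (z' (φ (ψ n)))) atTop (𝓝 (F b)) :=
        (hF.continuous.tendsto b).comp hb
      have e2 : (fun n => F (z' (φ (ψ n)))) = fun n => y (φ (ψ n)) := by
        funext n; exact h2 _
      rw [e2] at e1
      exact tendsto_nhds_unique e1 (hyφ.comp hψ.tendsto_atTop)
    refine ⟨a, b, ?_, hFa, hFb⟩
    rintro rfl
    obtain ⟨U, hU, hinj⟩ := loc_inj F hF hi a
    have e1 : ∀ᶠ n in atTop, z (φ (ψ n)) ∈ U := (ha.comp hψ.tendsto_atTop).eventually hU
    have e2 : ∀ᶠ n in atTop, z' (φ (ψ n)) ∈ U := hb.eventually hU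
    obtain ⟨n, hn1, hn2⟩ := (e1.and e2).exists
    exact hne _ (hinj hn1 hn2 ((h1 _).trans (h2 _).symm))
  have hu : D = univ := IsClopen.eq_univ ⟨hDc, hDo⟩ hDn
  have hcomp : IsCompact (K ∪ F '' K) := hK.union (hK.image hF.continuous)
  have hne : (K ∪ F '' K) ≠ univ := fun h => by
    have := NoncompactSpace.noncompact_univ (X := V)
    rw [h] at hcomp
    exact this hcomp
  obtain ⟨y, hy⟩ := (ne_univ_iff_exists_notMem _).1 hne
  have hyD : y ∈ D := hu ▸ mem_univ y
  obtain ⟨z, z', hne', h1, h2⟩ := hyD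
  have hzK : ∀ w, F w = y → w = y := by
    intro w hw
    have hwK : w ∉ K := fun h => hy (Or.inr ⟨w, h, hw⟩)
    rw [← hoff w hwK, hw]
  exact hne' ((hzK z h1).trans (hzK z' h2).symm)

theorem bij (K : Set V) (hK : IsCompact K) (F : V → V) (hF : ContDiff ℝ 1 F)
    (hi : ∀ z v, fderiv ℝ F z v = 0 → v = 0) (hoff : ∀ z, z ∉ K → F z = z) : Bijective F :=
  ⟨inj K hK F hF hi hoff, surj K hK F hF hi hoff⟩

end Q196.SL
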