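import Pool.Agent.Q196.SL.Bij

/-!
# Smoothness of the inverses of a family of diffeomorphisms
-/

set_option autoImplicit false

open scoped ContDiff
open Set Topology Function Filter

namespace Q196.SL

variable {V : Type*} [NormedAddCommGroup V] [NormedSpace ℝ V] [FiniteDimensional ℝ V]
variable {Q : Type*} [NormedAddCommGroup Q] [NormedSpace ℝ Q] [CompleteSpace Q]

/-- triangular equivalence -/
noncomputable def tri (L : Q × V →L[ℝ] V) (B : V ≃L[ℝ] V)
    (hB : ∀ v, B v = L (0, v)) : (Q × V) ≃L[ℝ] (Q × V) :=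
  ContinuousLinearEquiv.equivOfInverse
    ((ContinuousLinearMap.fst ℝ Q V).prod L)
    ((ContinuousLinearMap.fst ℝ Q V).prod
      ((B.symm : V →L[ℝ] V).comp ((ContinuousLinearMap.snd ℝ Q V) -
        L.comp ((ContinuousLinearMap.fst ℝ Q V).prod 0))))
    (by
      rintro ⟨a, v⟩
      have h : L (a, v) - L (a, 0) = B v := by
        rw [hB, ← map_sub]
        simp
      simp [← map_sub, h])
    (by
      rintro ⟨a, w⟩
      have h1 : L (a, B.symm (w - L (a, 0))) = w := by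
        have h2 : L (a, B.symm (w - L (a, 0))) = L (a, 0) + L (0, B.symm (w - L (a, 0))) := by
          rw [← map_add]; simp
        rw [h2, ← hB, B.apply_symm_apply]
        abel
      simp only [map_sub] at h1
      simp [h1])

theorem fam_inv (O : Set Q) (hO : IsOpen O) (F : Q × V → V)
    (hF : ContDiffOn ℝ ∞ F (O ×ˢ univ))
    (hi : ∀ q ∈ O, ∀ z v, fderiv ℝ (fun z => F (q, z)) z v = 0 → v = 0) (G : Q × V → V)
    (hG : ∀ q ∈ O, ∀ z, F (q, G (q, z)) = z) (hG' : ∀ q ∈ O, ∀ z, G (q, F (q, z)) = z) :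
    ContDiffOn ℝ ∞ G (O ×ˢ univ) := by
  have : CompleteSpace V := FiniteDimensional.complete ℝ V
  have hOO : IsOpen (O ×ˢ (univ : Set V)) := hO.prod isOpen_univ
  rintro ⟨q₀, y₀⟩ ⟨hq₀, -⟩
  set z₀ := G (q₀, y₀) with hz₀
  have hFat : ContDiffAt ℝ ∞ F (q₀, z₀) :=
    hF.contDiffAt (hOO.mem_nhds ⟨hq₀, mem_univ _⟩)
  let Ψ : Q × V → Q × V := fun p => (p.1, F p)
  have hΨ : ContDiffAt ℝ ∞ Ψ (q₀, z₀) := contDiffAt_fst.prodMk hFat
  have hFd : HasFDerivAt F (fderiv ℝ F (q₀, z₀)) (q₀, z₀) :=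
    (hFat.differentiableAt (by simp)).hasFDerivAt
  have hpart : HasFDerivAt (fun z => F (q₀, z))
      ((fderiv ℝ F (q₀, z₀)).comp (ContinuousLinearMap.inr ℝ Q V)) z₀ := by
    have h1 : HasFDerivAt (fun z : V => ((q₀, z) : Q × V)) (ContinuousLinearMap.inr ℝ Q V) z₀ :=
      hasFDerivAt_prodMk_right q₀ z₀
    exact hFd.comp z₀ h1
  have hinj : Injective ((fderiv ℝ F (q₀, z₀)).comp (ContinuousLinearMap.inr ℝ Q V)) := by
    rw [injective_iff_map_eq_zero]
    intro v hv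
    refine hi q₀ hq₀ z₀ v ?_
    rw [hpart.fderiv]
    exact hv
  let B : V ≃L[ℝ] V := (LinearEquiv.ofInjectiveEndo
    ((fderiv ℝ F (q₀, z₀)).comp (ContinuousLinearMap.inr ℝ Q V) : V →ₗ[ℝ] V)
    hinj).toContinuousLinearEquiv
  have hB : ∀ v, B v = fderiv ℝ F (q₀, z₀) (0, v) := fun v => rfl
  let T := tri (fderiv ℝ F (q₀, z₀)) B hB
  have hΨd : HasFDerivAt Ψ (T : Q × V →L[ℝ] Q × V) (q₀, z₀) := hasFDerivAt_fst.prodMk hFd
  let e := hΨ.toOpenPartialHomeomorph Ψ hΨd (by simp)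
  have hmem : (q₀, z₀) ∈ e.source := hΨ.mem_toOpenPartialHomeomorph_source hΨd (by simp)
  have hval : Ψ (q₀, z₀) = (q₀, y₀) := by
    show (q₀, F (q₀, G (q₀, y₀))) = (q₀, y₀)
    rw [hG q₀ hq₀ y₀]
  have hinv : ContDiffAt ℝ ∞ (hΨ.localInverse hΨd (by simp)) (Ψ (q₀, z₀)) :=
    hΨ.to_localInverse hΨd (by simp)
  rw [hval] at hinv
  have htar : e.target ∈ 𝓝 (q₀, y₀) := by
    refine e.open_target.mem_nhds ?_
    rw [← hval]
    exact e.map_source hmem
  have hev : G =ᶠ[𝓝 (q₀, y₀)] fun p => (hΨ.localInverse hΨd (by simp) p).2 := by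
    filter_upwards [htar, hOO.mem_nhds (show (q₀, y₀) ∈ O ×ˢ (univ : Set V) from ⟨hq₀, mem_univ _⟩)]
      with p hp hpO
    have h1 : Ψ (e.symm p) = p := e.right_inv hp
    have h2 : (e.symm p).1 = p.1 := (Prod.ext_iff.1 h1).1
    have h3 : F (e.symm p) = p.2 := (Prod.ext_iff.1 h1).2
    have h4 : hΨ.localInverse hΨd (by simp) p = e.symm p := rfl
    rw [h4]
    have h5 : e.symm p = (p.1, (e.symm p).2) := by
      rw [← h2]
    rw [h5] at h3
    have h6 := hG' p.1 hpO.1 (e.symm p).2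
    rw [h3] at h6
    exact h6
  exact ((contDiffAt_snd.comp (q₀, y₀) hinv).congr_of_eventuallyEq hev).contDiffWithinAt

end Q196.SL
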